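import Pool.Agent.R212.Lim5

open Set
open scoped ContDiff

/-- There is a smooth planar vector field with orthogonal Jacobian columns
(`P_x P_y + Q_x Q_y = 0` everywhere) that has a limit cycle. -/
theorem Pool.Agent.Results.MP_3ec6ac_an.LimitCycle.result :
    ∃ P Q : ℝ × ℝ → ℝ, ContDiff ℝ ∞ P ∧ ContDiff ℝ ∞ Q ∧
      (∀ p, fderiv ℝ P p (1, 0) * fderiv ℝ P p (0, 1)
        + fderiv ℝ Q p (1, 0) * fderiv ℝ Q p (0, 1) = 0) ∧
      ∃ Γ : Set (ℝ × ℝ), Pool.Agent.R212.IsLimitCycle P Q Γ :=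
  Pool.Agent.R212.limit_cycle
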